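import Pool.Agent.R402.CyH
set_option autoImplicit false
open MeasureTheory Filter Topology Set Complex Metric
open scoped ENNReal Real

/-! Every outer function in `D^p_{p-1}`, `p > 2`, is cyclic. -/

namespace Pool.Agent.Results.MP_57350d_an.CyclicOuter

/-- the norm of `D^p_{p-1}`: `|F(0)| + (∫_𝔻 (1 - |z|)^(p-1) |F'(z)|^p dA(z))^(1/p)`, with values in
`[0, ∞]` -/
noncomputable def dNorm (p : ℝ) (F : ℂ → ℂ) : ℝ≥0∞ :=
  ‖F 0‖ₑ + (∫⁻ z in ball (0 : ℂ) 1,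
    ENNReal.ofReal ((1 - ‖z‖) ^ (p - 1)) * ‖deriv F z‖ₑ ^ p) ^ (1 / p)

/-- `f` belongs to the space `D^p_{p-1}`: it is holomorphic on the unit disc with finite norm -/
def MemD (p : ℝ) (f : ℂ → ℂ) : Prop :=
  DifferentiableOn ℂ f (ball 0 1) ∧ dNorm p f < ∞

/-- `f` is an outer function: `f(z) = c exp((1/2π) ∫_0^{2π} (e^{iθ}+z)/(e^{iθ}-z) log k(θ) dθ)` in
the unit disc, with `|c| = 1`, `k ≥ 0` measurable, `k > 0` almost everywhere, `log k` integrable -/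
def IsOuter (f : ℂ → ℂ) : Prop :=
  ∃ c : ℂ, ‖c‖ = 1 ∧ ∃ k : ℝ → ℝ, Measurable k ∧ (∀ θ, 0 ≤ k θ) ∧
    (∀ᵐ θ ∂(volume.restrict (Ioc 0 (2 * π))), 0 < k θ) ∧
    IntegrableOn (fun θ => Real.log (k θ)) (Ioc 0 (2 * π)) volume ∧
    ∀ z ∈ ball (0 : ℂ) 1, f z = c * exp (1 / (2 * π) * ∫ θ in (0:ℝ)..(2 * π),
      (exp (θ * I) + z) / (exp (θ * I) - z) * (Real.log (k θ) : ℂ))

/-- `f` is cyclic in `D^p_{p-1}`: there are polynomials `q n` with `‖q n f - 1‖ → 0` -/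
def IsCyclic (p : ℝ) (f : ℂ → ℂ) : Prop :=
  ∃ q : ℕ → Polynomial ℂ,
    Tendsto (fun n => dNorm p (fun z => (q n).eval z * f z - 1)) atTop (𝓝 0)

/-- For every `p > 2`, every outer function in `D^p_{p-1}` is cyclic in `D^p_{p-1}`. -/
theorem result : ∀ p : ℝ, 2 < p → ∀ f : ℂ → ℂ, MemD p f → IsOuter f → IsCyclic p f := by
  intro p hp f hf ho
  obtain ⟨hd, hn⟩ := hf
  obtain ⟨c, hc, k, -, -, -, hk, hfo⟩ := ho
  have hI : R402.Cy.Iw p (deriv f) ≠ ∞ := by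
    intro h
    apply hn.ne
    unfold dNorm
    unfold R402.Cy.Iw at h
    rw [h, ENNReal.top_rpow_of_pos (by positivity), add_top]
  have hfo' : ∀ z ∈ ball (0:ℂ) 1, f z = c * exp (R402.Cy.Hg (fun θ => Real.log (k θ)) z) := by
    intro z hz
    rw [hfo z hz]
    unfold R402.Cy.Hg R402.Cy.ker R402.Cy.nu
    rw [intervalIntegral.integral_of_le (by positivity)]
    push_cast
    rfl
  have key : ∀ n : ℕ, ∃ q : Polynomial ℂ, dNorm p (fun z => q.eval z * f z - 1) ≤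
      ENNReal.ofReal (1 / ((n:ℝ) + 1)) + ENNReal.ofReal (1 / ((n:ℝ) + 1)) := by
    intro n
    have he : (0:ℝ) < 1 / ((n:ℝ) + 1) := by positivity
    have hε : 0 < ENNReal.ofReal (1 / ((n:ℝ) + 1)) ^ p :=
      ENNReal.rpow_pos (ENNReal.ofReal_pos.2 he) ENNReal.ofReal_ne_top
    obtain ⟨q, hq1, hq2⟩ := R402.Cy.final hp.le hd hI hc hk hfo' he hε
    refine ⟨q, ?_⟩
    unfold dNorm
    apply add_le_add
    · rw [← ofReal_norm]
      exact ENNReal.ofReal_le_ofReal hq1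
    · unfold R402.Cy.Iw at hq2
      refine (ENNReal.rpow_le_rpow hq2 (by positivity)).trans (le_of_eq ?_)
      rw [← ENNReal.rpow_mul, mul_one_div_cancel (by linarith), ENNReal.rpow_one]
  choose q hq using key
  refine ⟨q, ?_⟩
  have h1 : Tendsto (fun n : ℕ => ENNReal.ofReal (1 / ((n:ℝ) + 1)) +
      ENNReal.ofReal (1 / ((n:ℝ) + 1))) atTop (𝓝 0) := by
    have h2 := ENNReal.tendsto_ofReal (tendsto_one_div_add_atTop_nhds_zero_nat (𝕜 := ℝ))
    rw [ENNReal.ofReal_zero] at h2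
    simpa using h2.add h2
  exact tendsto_of_tendsto_of_tendsto_of_le_of_le tendsto_const_nhds h1 (fun _ => zero_le) hq

end Pool.Agent.Results.MP_57350d_an.CyclicOuter
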